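import Pool.Agent.H172.SqHole.Final

/-!
`γ_1(n) = γ_0(n) + 1` for every `n ≥ 2`, where `γ_h(n)` is the least number of square
occurrences in a binary word of length `n` with exactly `h` holes.
-/

namespace Pool.Agent.Results.MP_1442ba_co.SquareOneHole

open Pool.Agent.H172.SqHole

theorem result : ∀ n : ℕ, 2 ≤ n → gamma 1 n = gamma 0 n + 1 :=
  fun _ hn => gamma_one_eq hn

end Pool.Agent.Results.MP_1442ba_co.SquareOneHole
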